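import Pool.Agent.H343.AN.StE

set_option autoImplicit false
set_option linter.unusedSectionVars false

/-! # MP_aa4716_al, E4 : the cutting map is a strong contraction on near pairs -/

namespace Pool.Agent.H388.AN.E4

open Pool.Agent.TH68 Pool.Agent.Helper97.Hyp Pool.Agent.H343.AN

section main

variable {Γ : Type} [Group Γ] {W : WNorm Γ} {𝒜 : Type} [MulAction Γ 𝒜]

lemma phi_nonneg (ρ lam : ℝ) : 0 ≤ phi ρ lam := le_max_left _ _

lemma phi_le_one (ρ lam : ℝ) : phi ρ lam ≤ 1 := max_le zero_le_one (min_le_left _ _)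

lemma phi_eq_one {ρ lam : ℝ} (hρ : 0 < ρ) (h : ρ / 2 - ρ / 100 ≤ lam) : phi ρ lam = 1 := by
  have h1 : 1 ≤ (lam - (ρ / 2 - ρ / 50)) / (ρ / 100) := by
    rw [le_div_iff₀ (by positivity)]
    linarith
  unfold phi
  rw [min_eq_left h1, max_eq_right zero_le_one]

lemma phi_pos {ρ lam : ℝ} (hρ : 0 < ρ) (h : 0 < phi ρ lam) : ρ / 2 - ρ / 50 < lam := by
  by_contra hcon
  push Not at hcon
  have h1 : (lam - (ρ / 2 - ρ / 50)) / (ρ / 100) ≤ 0 :=
    div_nonpos_of_nonpos_of_nonneg (by linarith) (by positivity)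
  have h2 : phi ρ lam = 0 := by
    unfold phi
    exact max_eq_left ((min_le_right _ _).trans h1)
  linarith

/-- bounds for the ends of an axis followed for a long time -/
lemma ends (B : ToolB) (Y : Sys Γ W 𝒜) (R : Circ Y) (hρ : 10 ^ 6 * Y.θ ≤ R.ρ) (A : 𝒜)
    {u : Pt W} (hu : Red R.N (pt W 1) u) (h3 : 3 * Y.θ < pd (Y.S A) (pt W 1) u) {e xA : Pt W}
    (he : IsProj Y.θ (Y.S A) (pt W 1) e) (hx : IsProj Y.θ (Y.S A) u xA) :
    exc (pt W 1) u e ≤ 4 * Y.θ ∧ exc (pt W 1) u xA ≤ 4 * Y.θ ∧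
    ent R A ≤ dist (pt W 1) e ∧ dist (pt W 1) e ≤ ent R A + 44 * Y.θ ∧
    ent R A + pd (Y.S A) (pt W 1) u - 5 * Y.θ ≤ dist (pt W 1) xA ∧
    dist (pt W 1) xA ≤ ent R A + pd (Y.S A) (pt W 1) u + 45 * Y.θ := by
  have hδ := Y.hδ
  have hθ := Y.hθ
  obtain ⟨a1, a2, a3⟩ := B.near Y A he hx h3
  obtain ⟨b1, b2, b3⟩ := B.entatt Y R A
  have c1 : ent R A ≤ dist (pt W 1) e := by
    have := b2 1 R.N.one_mem e he.1
    rwa [one_smul] at this
  have c2 : dist (pt W 1) e ≤ ent R A + 44 * Y.θ := by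
    have h4 := B.entlev Y R hρ A (e := e) (m := 1) (η := 4 * Y.θ) R.N.one_mem (by linarith)
      (by linarith) (by rwa [one_smul]) (by rw [one_smul]; exact Redu.sub hu a2)
    rw [one_smul] at h4
    have := le_abs_self (dist (pt W 1) e - ent R A)
    linarith
  have c3 := le_pd_of_proj he hx
  have c4 := dist_triangle (pt W 1) e xA
  have c5 := dist_triangle (pt W 1) xA u
  rw [dist_comm xA u] at c5
  exact ⟨a2, a3, c1, c2, by linarith, by linarith⟩

/-- the cutting level along an axis which is followed for the maximal time -/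
lemma half (B : ToolB) (E2 : S_e2) (Y : Sys Γ W 𝒜) (R : Circ Y) (W' : WNorm (Γ ⧸ R.N))
    (hQ : Quo W R.N W') (hρ : 10 ^ 9 * Y.θ ≤ R.ρ) (b : ℝ) (x : Pt W') (A : 𝒜)
    (hA : R.ρ / 2 - 610 * Y.θ ≤ pd (Y.S A) (pt W 1) (lft R W' x)) :
    (ent R A ≤ b → ent R A + R.ρ / 2 - 610 * Y.θ ≤ bet R W' b x) ∧
    (b < ent R A → bet R W' b x ≤ ent R A + 108 * Y.θ) := by
  have hδ := Y.hδ
  have hθ := Y.hθ
  have hρ6 : 10 ^ 6 * Y.θ ≤ R.ρ := by linarith
  have hρ0 : 0 < R.ρ := by linarith
  obtain ⟨l1, l2, l3⟩ := lft_spec R hQ x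
  obtain ⟨f1, f2, f3, f4, f5, f6, f7⟩ := E2 Y R W' hQ hρ6 b x
  set u := lft R W' x with hu
  constructor
  · intro hb
    have h1 := f5 A
    have h2 : psi R W' b A x = max 0 (ent R A + pd (Y.S A) (pt W 1) u - b) := by
      unfold psi
      rw [if_pos hb, ← hu, phi_eq_one hρ0 (by linarith), one_mul]
    rw [h2] at h1
    have h3 := le_max_right 0 (ent R A + pd (Y.S A) (pt W 1) u - b)
    linarith
  · intro hb
    obtain ⟨e, he⟩ := Y.proj A (pt W 1)
    obtain ⟨xA, hxA⟩ := Y.proj A u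
    obtain ⟨g1, g2, g3, g4, g5, g6⟩ := ends B Y R hρ6 A l3 (by linarith) he hxA
    apply f6 _ (by linarith)
    intro C
    by_cases hC : ent R C ≤ b
    · have h2 : psi R W' b C x = phi R.ρ (pd (Y.S C) (pt W 1) u) *
          max 0 (ent R C + pd (Y.S C) (pt W 1) u - b) := by
        unfold psi
        rw [if_pos hC]
      rcases (phi_nonneg R.ρ (pd (Y.S C) (pt W 1) u)).eq_or_lt with h3 | h3
      · rw [h2, ← h3, zero_mul]
        linarith
      · have h4 := phi_pos hρ0 h3
        have hne : A ≠ C := by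
          rintro rfl
          linarith
        obtain ⟨eC, heC⟩ := Y.proj C (pt W 1)
        obtain ⟨xC, hxC⟩ := Y.proj C u
        obtain ⟨k1, k2, k3, k4, k5, k6⟩ := ends B Y R hρ6 C l3 (by linarith) heC hxC
        have h5 : ent R C + pd (Y.S C) (pt W 1) u ≤ ent R A + 108 * Y.θ := by
          rcases B.order Y hne (pt W 1) u (by linarith) (by linarith) with h6 | h6
          · exfalso
            have h7 := B.odist Y (A := A) (p := pt W 1) (q := u) (a := e) (b := eC)
              (by linarith) (h6 e he.1 eC heC.1).2 he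
            linarith
          · have h7 := B.odist Y (A := C) (p := pt W 1) (q := u) (a := eC) (b := e)
              (by linarith) (h6 e he.1 eC heC.1).2 heC
            linarith
        have h6 : phi R.ρ (pd (Y.S C) (pt W 1) u) *
          max 0 (ent R C + pd (Y.S C) (pt W 1) u - b) ≤ ent R A + 108 * Y.θ - b := by
          have h7 := phi_le_one R.ρ (pd (Y.S C) (pt W 1) u)
          have h8 : max 0 (ent R C + pd (Y.S C) (pt W 1) u - b) ≤ ent R A + 108 * Y.θ - b :=
            max_le (by linarith) (by linarith)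
          have h9 := le_max_left 0 (ent R C + pd (Y.S C) (pt W 1) u - b)
          nlinarith
        rw [h2]
        linarith
    · have h2 : psi R W' b C x = 0 := by
        unfold psi
        rw [if_neg hC]
      rw [h2]
      linarith

end main

theorem e4 : ToolB → S_d3 → S_e2 → S_e3 → S_e4 := by
  intro B D3 E2 E3 Γ _ W 𝒜 _ Y R W' hQ hρ b x y hb hx hy
  have hδ := Y.hδ
  have hθ := Y.hθ
  have hρ6 : 10 ^ 6 * Y.θ ≤ R.ρ := by linarith
  have hρ0 : 0 < R.ρ := by linarith
  have hxy0 := dist_nonneg (x := x) (y := y)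
  obtain ⟨l1, l2, l3⟩ := lft_spec R hQ x
  obtain ⟨m1, m2, m3⟩ := lft_spec R hQ y
  obtain ⟨f1, f2, f3, f4, f5, f6, f7⟩ := E2 Y R W' hQ hρ6 b x
  obtain ⟨g1, g2, g3, g4, g5, g6, g7⟩ := E2 Y R W' hQ hρ6 b y
  obtain ⟨p1, p2, p3⟩ := f7 hb (by linarith)
  obtain ⟨q1, q2, q3⟩ := g7 hb (by linarith)
  have hbet := E3 Y R W' hQ hρ b x y hb hx hy
  have halfx := half B E2 Y R W' hQ hρ b x
  have halfy := half B E2 Y R W' hQ hρ b y
  set u := lft R W' x with hu
  set v := lft R W' y with hv
  set p := zed R W' b x with hp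
  set q := zed R W' b y with hq
  set bx := bet R W' b x with hbx
  set by' := bet R W' b y with hby
  have hbx0 : 0 ≤ bx := by linarith
  have hby0 : 0 ≤ by' := by linarith
  have fl1 := Nat.floor_le hbx0
  have fl2 := (Nat.lt_floor_add_one bx).le
  have fl3 := Nat.floor_le hby0
  have fl4 := (Nat.lt_floor_add_one by').le
  rw [← p2] at fl1 fl2
  rw [← q2] at fl3 fl4
  have ab1 := le_abs_self (bx - by')
  have ab2 := neg_le_abs (bx - by')
  obtain ⟨m, hm, hmd⟩ := exists_smul hQ u v
  rw [l1, m1] at hmd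
  have hred : Red R.N u (m • v) := by
    rw [red_iff hQ, prj_smul hm, l1, m1, hmd]
  have hpu : dist p u = dist (pt W' 1) x - dist (pt W 1) p := by
    unfold exc at p1
    linarith
  have hcase := D3 Y R hρ6 hm l3 m3 hred p1 (by rw [hmd, hpu]; linarith)
  have hprj : ∀ (a c : Pt W) (n : Γ), n ∈ R.N → dist (prj W W' a) (prj W W' c) ≤
      dist a (n • c) := by
    intro a c n hn
    rw [← prj_smul (W' := W') hn c]
    exact prj_le hQ _ _
  rcases hcase with ⟨m', hm', q', hq', hd⟩ | ⟨C, m', hm', y₁, z₁, hy₁, hz₁, c1, c2, s, hs, hps⟩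
  · -- first alternative
    have h1 : dist (pt W 1) p ≤ dist (pt W 1) q' + 3000 * Y.θ := by
      have h2 := p3 m'⁻¹ (R.N.inv_mem hm')
      have h3 := dist_triangle (pt W 1) q' (m'⁻¹ • p)
      have h4 : dist q' (m'⁻¹ • p) = dist p (m' • q') := by
        rw [← dist_smul m' q', smul_inv_smul, dist_comm]
      linarith
    have h2 : dist (pt W 1) q' ≤ dist (pt W 1) p + 3000 * Y.θ := by
      have h3 := (m3.left hq') m' hm'
      have h4 := dist_triangle (pt W 1) p (m' • q')
      linarith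
    have h3 := order_close Y.hyp (x := pt W 1) (y := v) (z := q) (t := q') (a := 0) q1.le hq'.le
    have h4 : |dist (pt W 1) q - dist (pt W 1) q'| ≤ 10 ^ 7 * Y.θ + 3001 * Y.θ := by
      rw [abs_le]
      constructor <;> linarith
    have h5 := hprj p q' m' hm'
    have h6 := prj_le hQ q' q
    have h7 := dist_triangle (prj W W' p) (prj W W' q') (prj W W' q)
    rw [dist_comm q' q] at h6
    linarith
  · -- second alternative
    obtain ⟨D, hD⟩ : ∃ D : 𝒜, D = m'⁻¹ • C := ⟨_, rfl⟩
    have hCD : C = m' • D := by rw [hD, smul_inv_smul]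
    have hSmem : ∀ z : Pt W, z ∈ Y.S C ↔ m'⁻¹ • z ∈ Y.S D := by
      intro z
      constructor
      · intro hz
        have := Y.smul_mem m'⁻¹ C z hz
        rwa [← hD] at this
      · intro hz
        have := Y.smul_mem m' D _ hz
        rwa [← hCD, smul_inv_smul] at this
    have hpdCD : ∀ a c : Pt W, pd (Y.S C) (m' • a) (m' • c) = pd (Y.S D) a c :=
      fun a c => pd_smul (Y.Sne D) hSmem a c
    have hentCD : ent R C = ent R D := by
      rw [hCD]
      exact (B.entatt Y R D).2.2 m' hm'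
    have hux : R.ρ / 2 - 610 * Y.θ ≤ pd (Y.S C) (pt W 1) u := by
      have := B.mono Y C (o := pt W 1) (v := u) (q₁ := pt W 1) (q₂ := y₁) (c := 0) le_rfl
        (exc_left _ _).le hy₁.le
      linarith
    have hvy : R.ρ / 2 - 610 * Y.θ ≤ pd (Y.S D) (pt W 1) v := by
      have := B.mono Y D (o := pt W 1) (v := v) (q₁ := pt W 1) (q₂ := z₁) (c := 0) le_rfl
        (exc_left _ _).le hz₁.le
      rw [hpdCD] at c2
      linarith
    have hux2 := B.redpd Y R hρ6 C (η := 0) le_rfl (Redu.of_red l3 le_rfl)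
    have hvy2 := B.redpd Y R hρ6 D (η := 0) le_rfl (Redu.of_red m3 le_rfl)
    obtain ⟨e, he⟩ := Y.proj C (pt W 1)
    obtain ⟨xC, hxC⟩ := Y.proj C u
    obtain ⟨e', he'⟩ := Y.proj D (pt W 1)
    obtain ⟨yD, hyD⟩ := Y.proj D v
    obtain ⟨a1, a2, a3, a4, a5, a6⟩ := ends B Y R hρ6 C l3 (by linarith) he hxC
    obtain ⟨b1, b2, b3, b4, b5, b6⟩ := ends B Y R hρ6 D m3 (by linarith) he' hyD
    obtain ⟨ha1, ha2⟩ := halfx C hux
    obtain ⟨hb1, hb2⟩ := halfy D hvy
    rw [← hentCD] at b3 b4 b5 b6 hb1 hb2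
    have he'm : IsProj Y.θ (Y.S C) (m' • pt W 1) (m' • e') := IsProj.smul hSmem he'
    have hyDm : IsProj Y.θ (Y.S C) (m' • v) (m' • yD) := IsProj.smul hSmem hyD
    rcases le_or_gt (ent R C) b with hle | hlt
    · -- (a)
      have hbx1 := ha1 hle
      have hby1 := hb1 hle
      have h1 : dist (pt W 1) p ≤ dist (pt W 1) xC + 31 * Y.θ := by
        have h2 := hxC.2 s hs
        have h3 := dist_triangle u p s
        rw [dist_comm u p] at h3
        have h4 := dist_nonneg (x := xC) (y := s)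
        have h5 := dist_triangle (pt W 1) xC u
        rw [dist_comm xC u] at h5
        unfold exc at p1
        linarith
      have h2 := order_close Y.hyp (x := pt W 1) (y := u) (z := p) (t := xC) (a := 4 * Y.θ)
        (by rw [p1]; linarith) a2
      have h3 : |dist (pt W 1) p - dist (pt W 1) xC| ≤ 670 * Y.θ := by
        rw [abs_le]
        constructor <;> linarith
      have h4 := order_close Y.hyp (x := pt W 1) (y := v) (z := q) (t := yD) (a := 4 * Y.θ)
        (by rw [q1]; linarith) b2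
      have h5 : |dist (pt W 1) q - dist (pt W 1) yD| ≤ 10 ^ 7 * Y.θ + 1000 * Y.θ := by
        rw [abs_le]
        constructor <;> linarith
      obtain ⟨h, hh, hhd⟩ := B.exit Y R hρ6 C (o := pt W 1) (u := u) (u' := m' • v) (x := xC)
        (x' := m' • yD) (m := m') (K := 610 * Y.θ) hm' (by linarith) (by linarith) l3
        (m3.smul m') hux (by rw [hpdCD]; exact hvy) hxC hyDm
      have h6 := prj_le hQ p xC
      have h7 := hprj xC yD (h * m') (R.N.mul_mem (R.G_le C hh) hm')
      rw [mul_smul] at h7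
      have h8 := prj_le hQ yD q
      rw [dist_comm yD q] at h8
      have h9 := dist_triangle4 (prj W W' p) (prj W W' xC) (prj W W' yD) (prj W W' q)
      linarith
    · -- (b)
      have hbx1 := ha2 hlt
      have hby1 := hb2 hlt
      have h1 : dist p e ≤ 169 * Y.θ := by
        have h2 := he.2 s hs
        have h3 := dist_triangle (pt W 1) p s
        have h4 := dist_triangle p s e
        rw [dist_comm s e] at h4
        linarith
      have h2 : ent R C - 30 * Y.θ ≤ dist (pt W 1) p := by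
        have h3 := (B.entatt Y R C).2.1 1 R.N.one_mem s hs
        rw [one_smul] at h3
        have h4 := dist_triangle (pt W 1) p s
        linarith
      have h3 := order_close Y.hyp (x := pt W 1) (y := v) (z := q) (t := e') (a := 4 * Y.θ)
        (by rw [q1]; linarith) b1
      have h4 : |dist (pt W 1) q - dist (pt W 1) e'| ≤ 10 ^ 7 * Y.θ + 1000 * Y.θ := by
        rw [abs_le]
        constructor <;> linarith
      obtain ⟨⟨g, hg, hgd⟩, -, -⟩ := B.entry Y R hρ6 C (o := pt W 1) (e := e) (e' := m' • e')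
        (m := m') (η := 4 * Y.θ) hm' (by linarith) (by linarith) he he'm (Redu.sub l3 a1)
        (Redu.sub (m3.smul m') (by rw [exc_smul]; exact b1))
      have h6 := prj_le hQ p e
      have h7 := hprj e e' (g * m') (R.N.mul_mem (R.G_le C hg) hm')
      rw [mul_smul] at h7
      have h8 := prj_le hQ e' q
      rw [dist_comm e' q] at h8
      have h9 := dist_triangle4 (prj W W' p) (prj W W' e) (prj W W' e') (prj W W' q)
      linarith

end Pool.Agent.H388.AN.E4
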