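import Pool.Agent.H343.AN.StD

set_option autoImplicit false
set_option linter.unusedSectionVars false

/-! # MP_aa4716_al, D2 : the top of a triangle of the quotient -/

namespace Pool.Agent.H388.AN.D2

open Pool.Agent.TH68 Pool.Agent.Helper97.Hyp Pool.Agent.H343.AN

section aux

variable {Γ : Type*} [Group Γ] {W : WNorm Γ}

lemma dist_inv_smul (r : Γ) (a b : Pt W) : dist a (r⁻¹ • b) = dist (r • a) b := by
  rw [← dist_smul r a, smul_inv_smul]

lemma dist_chain (r : Γ) {a q₁ q₂ b : Pt W} {c₁ c₂ c₃ : ℝ} (h1 : dist q₁ a ≤ c₁)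
    (h2 : dist (r • q₁) q₂ ≤ c₂) (h3 : dist q₂ b ≤ c₃) :
    dist (r • a) b ≤ c₁ + c₂ + c₃ := by
  have h := dist_triangle4 (r • a) (r • q₁) q₂ b
  rw [dist_smul, dist_comm a q₁] at h
  linarith

/-- a point at a given distance from the second end -/
lemma exists_top (x y : Pt W) (k : ℕ) (hk : (k : ℝ) ≤ dist x y) :
    ∃ t : Pt W, exc x y t = 0 ∧ dist t y = k := by
  obtain ⟨t, h1, h2⟩ := exists_between y x k (by rwa [dist_comm])
  refine ⟨t, ?_, by rwa [dist_comm]⟩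
  unfold exc
  rw [dist_comm x t, dist_comm t y, h1, h2, dist_comm x y]
  ring

end aux

section main

variable {Γ : Type} [Group Γ] {W : WNorm Γ} {𝒜 : Type} [MulAction Γ 𝒜]

/-- the conclusion -/
def Cn (Y : Sys Γ W 𝒜) (R : Circ Y) (x y₁ y₂ z₁ z₂ w : Pt W) : Prop :=
  ∃ y z, ∃ m ∈ R.N, exc x y₁ y = 0 ∧ exc z₂ w z = 0 ∧ dist y (m • z) ≤ 500 * Y.θ ∧
    dist y y₁ ≤ 2 * dist y₂ z₁ + R.ρ

/-- the case of a trivial monodromy -/
lemma triv (Y : Sys Γ W 𝒜) (R : Circ Y) (hρ : 10 ^ 6 * Y.θ ≤ R.ρ) {x y₁ y₂ z₁ z₂ : Pt W}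
    (j₁ : dist y₁ y₂ ≤ 200 * Y.θ) (j₃ : dist z₁ z₂ ≤ 200 * Y.θ) : Cn Y R x y₁ y₂ z₁ z₂ x := by
  have hδ := Y.hδ
  have hθ := Y.hθ
  have hT := dist_nonneg (x := y₂) (y := z₁)
  have htri := dist_triangle4 y₁ y₂ z₁ z₂
  rcases le_or_gt (dist x y₁) (2 * dist y₂ z₁ + R.ρ) with h | h
  · refine ⟨x, x, 1, R.N.one_mem, exc_left _ _, exc_right _ _, ?_, h⟩
    rw [one_smul, dist_self]
    linarith
  · have hk0 : 0 ≤ dist y₂ z₁ + 500 * Y.θ := by linarith
    have hk1 := Nat.le_ceil (dist y₂ z₁ + 500 * Y.θ)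
    have hk2 := (Nat.ceil_lt_add_one hk0).le
    set k := ⌈dist y₂ z₁ + 500 * Y.θ⌉₊ with hk
    obtain ⟨y, hy, hy1⟩ := exists_top x y₁ k (by linarith)
    rcases exc_split Y.hyp x y₁ z₂ y with h1 | h1
    · rw [hy, zero_add] at h1
      obtain ⟨t, ht, h2⟩ := near_geod Y.hyp h1
      refine ⟨y, t, 1, R.N.one_mem, hy, ?_, ?_, ?_⟩
      · rw [exc_comm]; exact ht
      · rw [one_smul]; linarith
      · rw [hy1]; linarith
    · exfalso
      have h2 := dist_nonneg (x := z₂) (y := y)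
      unfold exc at h1 hy
      rw [dist_comm z₂ y₁] at h1
      linarith

/-- the conclusion after cutting off the top of the first side -/
lemma step02 (Y : Sys Γ W 𝒜) (R : Circ Y) (hρ : 10 ^ 6 * Y.θ ≤ R.ρ) {x y₁ y₂ z₁ z₂ w : Pt W}
    (c : Cfg R.N (200 * Y.θ) x y₁ y₂ z₁ z₂ w)
    (ih : ∀ x' y₁' y₂' z₁' z₂' w' : Pt W, Cfg R.N (200 * Y.θ) x' y₁' y₂' z₁' z₂' w' →
      dist y₂' z₁' < dist y₂ z₁ → Cn Y R x' y₁' y₂' z₁' z₂' w')
    {r : Γ} (hr : r ∈ R.N) {y' t₂ : Pt W} (hy' : exc x y₁ y' = 0) (ht₂ : exc y₂ z₁ t₂ = 0)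
    (hd : dist (r • y') t₂ ≤ 200 * Y.θ) (hlen : dist y' y₁ ≤ 2 * dist y₂ t₂)
    (hpos : 0 < dist y₂ t₂) : Cn Y R x y₁ y₂ z₁ z₂ w := by
  obtain ⟨n, hn, hw⟩ := c.cl
  have hc' : Cfg R.N (200 * Y.θ) x y' (r⁻¹ • t₂) (r⁻¹ • z₁) (r⁻¹ • z₂) (r⁻¹ • w) := by
    refine ⟨c.r₀.left hy', (c.r₂.right ht₂).smul _, c.r₄.smul _, ?_, by
      rw [dist_smul]; exact c.j₃, r⁻¹ * n, R.N.mul_mem (R.N.inv_mem hr) hn, by
      rw [hw, mul_smul]⟩
    rw [dist_inv_smul]
    exact hd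
  have ht : dist y₂ t₂ + dist t₂ z₁ = dist y₂ z₁ := by unfold exc at ht₂; linarith
  obtain ⟨y, z, m, hm, h1, h2, h3, h4⟩ := ih _ _ _ _ _ _ hc' (by rw [dist_smul]; linarith)
  refine ⟨y, r • z, m * r⁻¹, R.N.mul_mem hm (R.N.inv_mem hr), (exc_zero_trans' hy' h1).1, ?_,
    ?_, ?_⟩
  · rw [← exc_smul r, smul_inv_smul, smul_inv_smul] at h2
    exact h2
  · rw [mul_smul, inv_smul_smul]
    exact h3
  · have h5 := dist_triangle y y' y₁
    rw [dist_smul] at h4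
    linarith

/-- the conclusion after cutting off the lower part of the last side -/
lemma step24 (Y : Sys Γ W 𝒜) (R : Circ Y) (hρ : 10 ^ 6 * Y.θ ≤ R.ρ) {x y₁ y₂ z₁ z₂ w : Pt W}
    (c : Cfg R.N (200 * Y.θ) x y₁ y₂ z₁ z₂ w)
    (ih : ∀ x' y₁' y₂' z₁' z₂' w' : Pt W, Cfg R.N (200 * Y.θ) x' y₁' y₂' z₁' z₂' w' →
      dist y₂' z₁' < dist y₂ z₁ → Cn Y R x' y₁' y₂' z₁' z₂' w')
    {r : Γ} (hr : r ∈ R.N) {t₁ z' : Pt W} (ht₁ : exc y₂ z₁ t₁ = 0) (hz' : exc z₂ w z' = 0)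
    (hd : dist (r • t₁) z' ≤ 200 * Y.θ) (hlen : dist y₂ t₁ < dist y₂ z₁) :
    Cn Y R x y₁ y₂ z₁ z₂ w := by
  obtain ⟨n, hn, hw⟩ := c.cl
  have hc' : Cfg R.N (200 * Y.θ) x y₁ y₂ t₁ (r⁻¹ • z') (r⁻¹ • w) := by
    refine ⟨c.r₀, c.r₂.left ht₁, (c.r₄.right hz').smul _, c.j₁, ?_, r⁻¹ * n,
      R.N.mul_mem (R.N.inv_mem hr) hn, by rw [hw, mul_smul]⟩
    rw [dist_inv_smul]
    exact hd
  obtain ⟨y, z, m, hm, h1, h2, h3, h4⟩ := ih _ _ _ _ _ _ hc' hlen
  refine ⟨y, r • z, m * r⁻¹, R.N.mul_mem hm (R.N.inv_mem hr), h1, ?_, ?_, by linarith⟩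
  · rw [← exc_smul r, smul_inv_smul, smul_inv_smul] at h2
    exact (exc_zero_trans hz' h2).1
  · rw [mul_smul, inv_smul_smul]
    exact h3

/-- the case (0, 4) when the projections of `y₁` and `z₂` are far -/
lemma far04 (B : ToolB) (Y : Sys Γ W 𝒜) (R : Circ Y) (hρ : 10 ^ 6 * Y.θ ≤ R.ρ)
    {x y₁ y₂ z₁ z₂ w : Pt W} (c : Cfg R.N (200 * Y.θ) x y₁ y₂ z₁ z₂ w) {A : 𝒜} {q₁ q₂ yA : Pt W}
    (hq₁ : IsProj Y.θ (Y.S A) x q₁) (hq₂ : IsProj Y.θ (Y.S A) w q₂)
    (hyA : IsProj Y.θ (Y.S A) y₁ yA) (hpd : R.ρ - 52 * Y.θ ≤ pd (Y.S A) x w)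
    (hτ : dist y₂ z₁ + 450 * Y.θ < dist y₁ yA) : Cn Y R x y₁ y₂ z₁ z₂ w := by
  have hδ := Y.hδ
  have hθ := Y.hθ
  have hT := dist_nonneg (x := y₂) (y := z₁)
  have j₁ := c.j₁
  have j₃ := c.j₃
  have htri := dist_triangle4 y₁ y₂ z₁ z₂
  obtain ⟨zA, hzA⟩ := Y.proj A z₂
  have hB2a := B.redpd Y R hρ A (η := 0) le_rfl (Redu.of_red c.r₀ le_rfl)
  have hB2b := B.redpd Y R hρ A (η := 0) le_rfl (Redu.of_red c.r₄ le_rfl)
  have h1 : pd (Y.S A) y₁ z₂ ≤ 3 * Y.θ := by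
    by_contra hcon
    push Not at hcon
    have h2 := (B.near Y A hyA hzA hcon).1
    have h3 := dist_nonneg (x := z₂) (y := zA)
    linarith
  have h2 := pd_tri (Y.Sne A) x y₁ w
  have h3 := pd_tri (Y.Sne A) y₁ z₂ w
  have h4 : R.ρ / 2 - 61 * Y.θ ≤ pd (Y.S A) x y₁ := by linarith
  have h5 : R.ρ / 2 - 61 * Y.θ ≤ pd (Y.S A) z₂ w := by linarith
  obtain ⟨a1, a2, a3⟩ := B.near Y A hq₁ hyA (by linarith)
  obtain ⟨b1, b2, b3⟩ := B.near Y A hzA hq₂ (by linarith)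
  have h6 : dist yA zA ≤ 4 * Y.θ := by
    have := le_pd_of_proj hyA hzA
    linarith
  have hk0 : 0 ≤ dist y₂ z₁ + 430 * Y.θ := by linarith
  have hk1 := Nat.le_ceil (dist y₂ z₁ + 430 * Y.θ)
  have hk2 := (Nat.ceil_lt_add_one hk0).le
  set k := ⌈dist y₂ z₁ + 430 * Y.θ⌉₊ with hk
  have hq₁0 := dist_nonneg (x := x) (y := q₁)
  obtain ⟨y, hy, hy1⟩ := exists_top x y₁ k (by linarith)
  have h7 : exc yA y₁ y ≤ 2 * Y.θ := by
    rcases exc_split Y.hyp x y₁ yA y with h8 | h8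
    · exfalso
      have h9 := dist_nonneg (x := y) (y := yA)
      unfold exc at h8 hy a3
      rw [dist_comm yA y₁] at a3
      linarith
    · linarith
  have h8 : exc zA y₁ y ≤ 10 * Y.θ := by
    have := exc_move_left yA zA y₁ y
    linarith
  have h9 : exc zA z₂ y ≤ 12 * Y.θ := by
    rcases exc_split Y.hyp zA y₁ z₂ y with h10 | h10
    · linarith
    · exfalso
      have h11 := dist_nonneg (x := z₂) (y := y)
      unfold exc at h10 h8
      rw [dist_comm z₂ y₁] at h10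
      linarith
  have h10 : exc z₂ w y ≤ 16 * Y.θ := by
    have h11 := dist_triangle y zA w
    unfold exc at h9 b2 ⊢
    rw [dist_comm zA y, dist_comm y z₂, dist_comm zA z₂] at h9
    linarith
  obtain ⟨z, hz, hz'⟩ := near_geod Y.hyp h10
  refine ⟨y, z, 1, R.N.one_mem, hy, hz, ?_, ?_⟩
  · rw [one_smul]; linarith
  · rw [hy1]; linarith

theorem main (B : ToolB) (P : S_poly) (Y : Sys Γ W 𝒜) (R : Circ Y) (hρ : 10 ^ 6 * Y.θ ≤ R.ρ)
    (m : ℕ) : ∀ x y₁ y₂ z₁ z₂ w : Pt W, Cfg R.N (200 * Y.θ) x y₁ y₂ z₁ z₂ w →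
      nd y₂ z₁ = m → Cn Y R x y₁ y₂ z₁ z₂ w := by
  induction m using Nat.strong_induction_on with
  | _ m ihm =>
    intro x y₁ y₂ z₁ z₂ w c hm
    have hδ := Y.hδ
    have hθ := Y.hθ
    have ih : ∀ x' y₁' y₂' z₁' z₂' w' : Pt W, Cfg R.N (200 * Y.θ) x' y₁' y₂' z₁' z₂' w' →
        dist y₂' z₁' < dist y₂ z₁ → Cn Y R x' y₁' y₂' z₁' z₂' w' := by
      intro x' y₁' y₂' z₁' z₂' w' c' hlt
      refine ihm _ ?_ _ _ _ _ _ _ c' rfl
      rw [← hm]
      simp only [dist_eq_nd] at hlt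
      exact_mod_cast hlt
    obtain ⟨n, hn, hw⟩ := c.cl
    by_cases hn1 : n = 1
    · rw [hn1, one_smul] at hw
      rw [hw]
      exact triv Y R hρ c.j₁ c.j₃
    let v : ℕ → Pt W := fun i => match i with
      | 0 => x
      | 1 => y₁
      | 2 => y₂
      | 3 => z₁
      | 4 => z₂
      | _ => w
    obtain ⟨A, r, hr, q₁, q₂, hq₁', hq₂', hr1, hd, hfar, hpd', a, b, hab, hb, h₁, h₂⟩ :=
      P Y R hρ hn hn1 v 5 (by norm_num) (by norm_num) hw
    have hq₁ : IsProj Y.θ (Y.S A) x q₁ := hq₁'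
    have hq₂ : IsProj Y.θ (Y.S A) w q₂ := hq₂'
    have hpd : R.ρ - 52 * Y.θ ≤ pd (Y.S A) x w := hpd'
    have hrN : r ∈ R.N := R.G_le A hr
    have hT := dist_nonneg (x := y₂) (y := z₁)
    have j₁ := c.j₁
    have j₃ := c.j₃
    have excl : ∀ p q : Pt W, Red R.N p q → exc p q q₁ ≤ 436 * Y.θ → exc p q q₂ ≤ 436 * Y.θ →
        False := by
      intro p q hpq h1 h2
      have := hpq.bound Y.hyp hrN h1 h2 hd
      linarith
    obtain ⟨yA, hyA⟩ := Y.proj A y₁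
    have hB2a := B.redpd Y R hρ A (η := 0) le_rfl (Redu.of_red c.r₀ le_rfl)
    have hτ0 := dist_nonneg (x := y₁) (y := yA)
    have hqA : dist q₁ yA ≤ R.ρ / 2 + 7 * Y.θ := by
      have := le_pd_of_proj hq₁ hyA
      linarith
    have hq₁y : dist q₁ y₁ ≤ R.ρ / 2 + 7 * Y.θ + dist y₁ yA := by
      have := dist_triangle q₁ yA y₁
      rw [dist_comm yA y₁] at this
      linarith
    interval_cases b
    · -- (0, 0)
      interval_cases a
      exfalso
      exact excl x y₁ c.r₀ (h₁.trans (by linarith)) (h₂.trans (by linarith))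
    · -- (·, 1)
      have h₂' : exc y₁ y₂ q₂ ≤ 16 * Y.θ := h₂
      have h3 := jump_near h₂' c.j₁
      interval_cases a
      · exfalso
        refine excl x y₁ c.r₀ (h₁.trans (by linarith)) ?_
        have := exc_le_two' x y₁ q₂
        linarith [h3.1]
      · exfalso
        have h₁' : exc y₁ y₂ q₁ ≤ 16 * Y.θ := h₁
        have h4 := jump_near h₁' c.j₁
        have := dist_triangle q₁ y₁ q₂
        rw [dist_comm y₁ q₂] at this
        linarith [h3.1, h4.1]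
    · -- (·, 2)
      have h₂' : exc y₂ z₁ q₂ ≤ 16 * Y.θ := h₂
      interval_cases a
      · -- (0, 2)
        have h₁' : exc x y₁ q₁ ≤ 16 * Y.θ := h₁
        obtain ⟨y', hy', hy'd⟩ := near_geod Y.hyp h₁'
        obtain ⟨t₂, ht₂, ht₂d⟩ := near_geod Y.hyp h₂'
        obtain ⟨yB, hyB⟩ := Y.proj A y₂
        have e1 : dist yA yB ≤ 201 * Y.θ := by
          have h3 := le_pd_of_proj hyA hyB
          have h4 := pd_le_dist (Y.Sne A) y₁ y₂
          linarith
        have e2 := dist_triangle4 q₁ yA yB q₂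
        have e3 := hyB.2 q₂ hq₂.1
        have e4 := proj_dist_le hyA hyB.1
        have e5 := dist_triangle y₁ y₂ yB
        have e6 := dist_triangle y₂ t₂ q₂
        rw [dist_comm t₂ q₂] at e6
        have e7 := dist_triangle y' q₁ y₁
        rw [dist_comm y' q₁] at e7
        refine step02 Y R hρ c ih hrN hy' ht₂ ?_ (by linarith) (by linarith)
        have := dist_chain r hy'd hd ht₂d
        linarith
      · exfalso
        have h4 := jump_near h₁ c.j₁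
        refine excl y₂ z₁ c.r₂ ?_ (h₂'.trans (by linarith))
        have := exc_le_two y₂ z₁ q₁
        rw [dist_comm] at this
        have := h4.2
        change dist q₁ y₂ ≤ _ at this
        linarith
      · exfalso
        exact excl y₂ z₁ c.r₂ (h₁.trans (by linarith)) (h₂'.trans (by linarith))
    · -- (·, 3)
      have h₂' : exc z₁ z₂ q₂ ≤ 16 * Y.θ := h₂
      have h3 := jump_near h₂' c.j₃
      have h5 : exc y₂ z₁ q₂ ≤ 432 * Y.θ := by
        have := exc_le_two' y₂ z₁ q₂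
        linarith [h3.1]
      interval_cases a
      · -- (0, 3)
        have h₁' : exc x y₁ q₁ ≤ 16 * Y.θ := h₁
        obtain ⟨y, hy, hyd⟩ := near_geod Y.hyp h₁'
        refine ⟨y, z₂, r⁻¹, R.N.inv_mem hrN, hy, exc_left _ _, ?_, ?_⟩
        · rw [dist_inv_smul]
          have := dist_chain r hyd hd h3.2
          linarith
        · have e1 := proj_dist_le hyA hq₂.1
          have e2 := dist_triangle4 y₁ y₂ z₁ q₂
          rw [dist_comm z₁ q₂] at e2
          have e3 := dist_triangle y q₁ y₁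
          rw [dist_comm y q₁] at e3
          linarith [h3.1]
      · exfalso
        have h4 := jump_near h₁ c.j₁
        refine excl y₂ z₁ c.r₂ ?_ (h5.trans (by linarith))
        have := exc_le_two y₂ z₁ q₁
        rw [dist_comm] at this
        have := h4.2
        change dist q₁ y₂ ≤ _ at this
        linarith
      · exfalso
        exact excl y₂ z₁ c.r₂ (h₁.trans (by linarith)) (h5.trans (by linarith))
      · exfalso
        have h₁' : exc z₁ z₂ q₁ ≤ 16 * Y.θ := h₁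
        have h4 := jump_near h₁' c.j₃
        have := dist_triangle q₁ z₁ q₂
        rw [dist_comm z₁ q₂] at this
        linarith [h3.1, h4.1]
    · -- (·, 4)
      have h₂' : exc z₂ w q₂ ≤ 16 * Y.θ := h₂
      obtain ⟨z, hz, hzd⟩ := near_geod Y.hyp h₂'
      interval_cases a
      · -- (0, 4)
        have h₁' : exc x y₁ q₁ ≤ 16 * Y.θ := h₁
        rcases lt_or_ge (dist y₂ z₁ + 450 * Y.θ) (dist y₁ yA) with h6 | h6
        · exact far04 B Y R hρ c hq₁ hq₂ hyA hpd h6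
        · obtain ⟨y, hy, hyd⟩ := near_geod Y.hyp h₁'
          refine ⟨y, z, r⁻¹, R.N.inv_mem hrN, hy, hz, ?_, ?_⟩
          · rw [dist_inv_smul]
            have := dist_chain r hyd hd hzd
            linarith
          · have e3 := dist_triangle y q₁ y₁
            rw [dist_comm y q₁] at e3
            linarith
      · -- (1, 4)
        have h₁' : exc y₁ y₂ q₁ ≤ 16 * Y.θ := h₁
        have h4 := jump_near h₁' c.j₁
        refine ⟨y₁, z, r⁻¹, R.N.inv_mem hrN, exc_right _ _, hz, ?_, ?_⟩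
        · rw [dist_inv_smul]
          have := dist_chain r h4.1 hd hzd
          linarith
        · rw [dist_self]
          linarith
      · -- (2, 4)
        have h₁' : exc y₂ z₁ q₁ ≤ 16 * Y.θ := h₁
        obtain ⟨t₁, ht₁, ht₁d⟩ := near_geod Y.hyp h₁'
        refine step24 Y R hρ c ih hrN ht₁ hz ?_ ?_
        · have := dist_chain r ht₁d hd hzd
          linarith
        · by_contra hcon
          push Not at hcon
          apply excl z₂ w c.r₄ ?_ (h₂'.trans (by linarith))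
          have e1 := exc_le_two z₂ w q₁
          have e2 := dist_triangle4 z₂ z₁ t₁ q₁
          rw [dist_comm z₂ z₁, dist_comm z₁ t₁, dist_comm t₁ q₁] at e2
          unfold exc at ht₁
          linarith
      · exfalso
        have h4 := jump_near h₁ c.j₃
        refine excl z₂ w c.r₄ ?_ (h₂'.trans (by linarith))
        have := exc_le_two z₂ w q₁
        rw [dist_comm] at this
        have := h4.2
        change dist q₁ z₂ ≤ _ at this
        linarith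
      · exfalso
        exact excl z₂ w c.r₄ (h₁.trans (by linarith)) (h₂'.trans (by linarith))

end main

theorem d2 : ToolB → S_poly → S_d2 := by
  intro B P Γ _ W 𝒜 _ Y R hρ x y₁ y₂ z₁ z₂ w c
  exact main B P Y R hρ _ x y₁ y₂ z₁ z₂ w c rfl

end Pool.Agent.H388.AN.D2
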